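import Pool.Agent.K6.H47.GL.Stm

/-!
# Basic facts for the piece KK
-/

set_option autoImplicit false

open TensorProduct

universe u

namespace Pool.Agent.K6.H9.KK

open Pool.Agent.K6.H47.GL

section WLocS

variable {R : Type u} [CommRing R] {w : Ideal R}

theorem wloc_tensor (N : Type u) [AddCommGroup N] [Module R N] {X : Type u} [AddCommGroup X]
    [Module R X] (h : WLoc w X) : WLoc w (N ⊗[R] X) := by
  intro s hs
  have h1 := h s hs
  let e : X ≃ₗ[R] X := LinearEquiv.ofBijective (LinearMap.lsmul R X s) h1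
  have h2 : (fun z : N ⊗[R] X => s • z) = (LinearEquiv.lTensor N e) := by
    funext z
    have h3 : (LinearMap.lsmul R (N ⊗[R] X) s) = (LinearEquiv.lTensor N e).toLinearMap := by
      apply TensorProduct.ext'
      intro a b
      simp [e]
    exact congrArg (fun f => f z) h3
  rw [h2]
  exact (LinearEquiv.lTensor N e).bijective

theorem wloc_ker {X Y : Type u} [AddCommGroup X] [Module R X] [AddCommGroup Y] [Module R Y]
    (f : X →ₗ[R] Y) (hX : WLoc w X) (hY : WLoc w Y) : WLoc w (LinearMap.ker f) := by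
  intro s hs
  constructor
  · intro a b hab
    apply Subtype.ext
    apply (hX s hs).1
    exact congrArg Subtype.val hab
  · intro x
    obtain ⟨a, ha⟩ := (hX s hs).2 x.1
    have h1 : f a = 0 := by
      apply (hY s hs).1
      change s • f a = s • (0 : Y)
      rw [← map_smul]
      change f (s • a) = _
      have h2 : s • a = x.1 := ha
      rw [h2, smul_zero]
      exact x.2
    exact ⟨⟨a, h1⟩, Subtype.ext ha⟩

theorem wloc_prod {X Y : Type u} [AddCommGroup X] [Module R X] [AddCommGroup Y] [Module R Y]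
    (hX : WLoc w X) (hY : WLoc w Y) : WLoc w (X × Y) := by
  intro s hs
  constructor
  · intro a b hab
    have h1 : s • a = s • b := hab
    exact Prod.ext ((hX s hs).1 (congrArg Prod.fst h1)) ((hY s hs).1 (congrArg Prod.snd h1))
  · intro x
    obtain ⟨a, ha⟩ := (hX s hs).2 x.1
    obtain ⟨b, hb⟩ := (hY s hs).2 x.2
    exact ⟨(a, b), Prod.ext ha hb⟩

variable [w.IsPrime]

theorem wloc_units {X : Type u} [AddCommGroup X] [Module R X] (h : WLoc w X)
    (x : w.primeCompl) : IsUnit ((algebraMap R (Module.End R X)) x) := by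
  rw [Module.End.isUnit_iff]
  exact h x.1 x.2

theorem wloc_Lw (N : Type u) [AddCommGroup N] [Module R N] : WLoc w (Lw w N) := by
  intro s hs
  have h1 := IsLocalizedModule.map_units (S := w.primeCompl)
    (LocalizedModule.mkLinearMap w.primeCompl N) ⟨s, hs⟩
  rw [Module.End.isUnit_iff] at h1
  exact h1

/-- extension of a map to the localization -/
noncomputable def xl {N Z : Type u} [AddCommGroup N] [Module R N] [AddCommGroup Z] [Module R Z]
    (h : WLoc w Z) (f : N →ₗ[R] Z) : Lw w N →ₗ[R] Z :=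
  IsLocalizedModule.lift w.primeCompl (LocalizedModule.mkLinearMap w.primeCompl N) f
    (wloc_units h)

/-- the map to the localization -/
noncomputable abbrev mk (w : Ideal R) [w.IsPrime] (N : Type u) [AddCommGroup N] [Module R N] :
    N →ₗ[R] Lw w N :=
  LocalizedModule.mkLinearMap w.primeCompl N

theorem xl_mk {N Z : Type u} [AddCommGroup N] [Module R N] [AddCommGroup Z] [Module R Z]
    (h : WLoc w Z) (f : N →ₗ[R] Z) (n : N) : xl h f (mk w N n) = f n :=
  IsLocalizedModule.lift_apply _ _ _ _ _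

theorem xl_comp {N Z : Type u} [AddCommGroup N] [Module R N] [AddCommGroup Z] [Module R Z]
    (h : WLoc w Z) (f : N →ₗ[R] Z) : xl h f ∘ₗ mk w N = f :=
  IsLocalizedModule.lift_comp _ _ _ _

theorem xl_unique {N Z : Type u} [AddCommGroup N] [Module R N] [AddCommGroup Z] [Module R Z]
    (h : WLoc w Z) (f g : Lw w N →ₗ[R] Z) (hfg : f ∘ₗ mk w N = g ∘ₗ mk w N) : f = g :=
  IsLocalizedModule.ext w.primeCompl (LocalizedModule.mkLinearMap w.primeCompl N)
    (wloc_units h) hfg

theorem Lmap_mk {N M : Type u} [AddCommGroup N] [Module R N] [AddCommGroup M] [Module R M]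
    (f : N →ₗ[R] M) (n : N) : Lmap w f (mk w N n) = mk w M (f n) :=
  IsLocalizedModule.map_apply _ _ _ _ _

theorem Lmap_comp_mk {N M : Type u} [AddCommGroup N] [Module R N] [AddCommGroup M] [Module R M]
    (f : N →ₗ[R] M) : Lmap w f ∘ₗ mk w N = mk w M ∘ₗ f :=
  LinearMap.ext fun n => Lmap_mk f n

theorem ses_Lmap {X Y Z : Type u} [AddCommGroup X] [Module R X] [AddCommGroup Y] [Module R Y]
    [AddCommGroup Z] [Module R Z] {f : X →ₗ[R] Y} {g : Y →ₗ[R] Z} (h : SES f g) :
    SES (Lmap w f) (Lmap w g) where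
  inj := IsLocalizedModule.map_injective _ _ _ _ h.inj
  exact := IsLocalizedModule.map_exact _ _ _ _ _ _ h.exact
  surj := IsLocalizedModule.map_surjective _ _ _ _ h.surj

theorem mk_surj' (w : Ideal R) [w.IsPrime] {N : Type u} [AddCommGroup N] [Module R N]
    (x : Lw w N) : ∃ (n : N) (s : R), s ∉ w ∧ s • x = mk w N n := by
  obtain ⟨⟨n, s⟩, h⟩ := IsLocalizedModule.surj w.primeCompl
    (LocalizedModule.mkLinearMap w.primeCompl N) x
  exact ⟨n, s.1, s.2, h⟩

theorem mk_eq_zero' (w : Ideal R) [w.IsPrime] {N : Type u} [AddCommGroup N] [Module R N] (n : N) :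
    mk w N n = 0 ↔ ∃ s : R, s ∉ w ∧ s • n = 0 := by
  have h1 := IsLocalizedModule.eq_iff_exists w.primeCompl
    (LocalizedModule.mkLinearMap w.primeCompl N) (x₁ := n) (x₂ := 0)
  rw [map_zero] at h1
  change LocalizedModule.mkLinearMap w.primeCompl N n = 0 ↔ _
  rw [h1]
  constructor
  · rintro ⟨c, hc⟩
    rw [smul_zero] at hc
    exact ⟨c.1, c.2, hc⟩
  · rintro ⟨s, hs, h⟩
    exact ⟨⟨s, hs⟩, by rw [smul_zero]; exact h⟩

theorem xl_inj {N Z : Type u} [AddCommGroup N] [Module R N] [AddCommGroup Z] [Module R Z]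
    (h : WLoc w Z) (f : N →ₗ[R] Z) (hf : Function.Injective f) : Function.Injective (xl h f) := by
  rw [injective_iff_map_eq_zero]
  intro x hx
  obtain ⟨n, s, hs, hn⟩ := mk_surj' w x
  have h1 : f n = 0 := by
    rw [← xl_mk h f n, ← hn, map_smul, hx, smul_zero]
  have h2 : n = 0 := (injective_iff_map_eq_zero f).1 hf n h1
  apply (wloc_Lw N s hs).1
  change s • x = s • (0 : Lw w N)
  rw [hn, h2, map_zero, smul_zero]

end WLocS

section Ck

variable {R : Type u} [CommRing R] {r : ℕ} (y : Fin r → R)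

theorem pr_surj (X : Type u) [AddCommGroup X] [Module R X] : Function.Surjective (pr y X) :=
  LinearMap.rTensor_surjective _ (Submodule.mkQ_surjective _)

theorem pr_exact (X : Type u) [AddCommGroup X] [Module R X] :
    Function.Exact (eta y X) (pr y X) := by
  have h1 : Function.Exact (Algebra.linearMap R (Bk y))
      (Submodule.mkQ (LinearMap.range (Algebra.linearMap R (Bk y)))) := by
    intro b
    rw [Submodule.mkQ_apply, Submodule.Quotient.mk_eq_zero]
    exact Iff.rfl
  have h2 := rTensor_exact X h1 (Submodule.mkQ_surjective _)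
  intro b
  rw [show pr y X b = 0 ↔ b ∈ Set.range (LinearMap.rTensor X (Algebra.linearMap R (Bk y))) from
    h2 b]
  have h3 : ∀ a : R ⊗[R] X, LinearMap.rTensor X (Algebra.linearMap R (Bk y)) a =
      eta y X (TensorProduct.lid R X a) := by
    intro a
    have h4 : LinearMap.rTensor X (Algebra.linearMap R (Bk y)) =
        eta y X ∘ₗ (TensorProduct.lid R X).toLinearMap := by
      apply TensorProduct.ext'
      intro a x
      simp only [LinearMap.rTensor_tmul, LinearMap.comp_apply, LinearEquiv.coe_coe,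
        TensorProduct.lid_tmul, map_smul, eta, TensorProduct.mk_apply]
      rw [TensorProduct.smul_tmul', Algebra.linearMap_apply, Algebra.algebraMap_eq_smul_one]
    rw [h4]
    rfl
  constructor
  · rintro ⟨a, rfl⟩
    exact ⟨_, (h3 a).symm⟩
  · rintro ⟨x, rfl⟩
    refine ⟨(TensorProduct.lid R X).symm x, ?_⟩
    rw [h3, LinearEquiv.apply_symm_apply]

theorem pr_eta (X : Type u) [AddCommGroup X] [Module R X] (x : X) :
    pr y X (eta y X x) = 0 := (pr_exact y X (eta y X x)).2 ⟨x, rfl⟩

theorem eta_nat {X Z : Type u} [AddCommGroup X] [Module R X] [AddCommGroup Z] [Module R Z]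
    (φ : X →ₗ[R] Z) (x : X) : LinearMap.lTensor (Bk y) φ (eta y X x) = eta y Z (φ x) := by
  simp [eta]

theorem pr_nat {X Z : Type u} [AddCommGroup X] [Module R X] [AddCommGroup Z] [Module R Z]
    (φ : X →ₗ[R] Z) (b : Bk y ⊗[R] X) :
    pr y Z (LinearMap.lTensor (Bk y) φ b) = LinearMap.lTensor (Qk y) φ (pr y X b) := by
  have h1 : pr y Z ∘ₗ LinearMap.lTensor (Bk y) φ = LinearMap.lTensor (Qk y) φ ∘ₗ pr y X := by
    unfold pr
    rw [LinearMap.rTensor_comp_lTensor, LinearMap.lTensor_comp_rTensor]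
  exact congrArg (fun f => f b) h1

/-- a map to `B ⊗ Z` with image zero in `Q ⊗ Z` comes from a map to `Z` -/
theorem lift_eta {A Z : Type u} [AddCommGroup A] [Module R A] [AddCommGroup Z] [Module R Z]
    (hZ : W y 0 Z) (h : A →ₗ[R] Bk y ⊗[R] Z) (h0 : ∀ a, pr y Z (h a) = 0) :
    ∃ φ : A →ₗ[R] Z, ∀ a, eta y Z (φ a) = h a := by
  have h1 : ∀ a, h a ∈ LinearMap.range (eta y Z) := fun a => (pr_exact y Z _).1 (h0 a)
  let e : Z ≃ₗ[R] LinearMap.range (eta y Z) := LinearEquiv.ofInjective (eta y Z) hZ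
  refine ⟨e.symm.toLinearMap ∘ₗ LinearMap.codRestrict (LinearMap.range (eta y Z)) h h1, ?_⟩
  intro a
  have h2 : e (e.symm (LinearMap.codRestrict (LinearMap.range (eta y Z)) h h1 a)) =
      LinearMap.codRestrict (LinearMap.range (eta y Z)) h h1 a := e.apply_symm_apply _
  exact congrArg Subtype.val h2

theorem W_subsingleton : ∀ (p : ℕ) (X : Type u) [AddCommGroup X] [Module R X] [Subsingleton X],
    W y p X
  | 0, _, _, _, _ => fun _ _ _ => Subsingleton.elim _ _
  | p + 1, X, _, _, _ => W_subsingleton p (Qk y ⊗[R] X)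

end Ck

end Pool.Agent.K6.H9.KK
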